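import Pool.Agent.H607R3.BN.Main

/-!
# MP_eed2ef_ag, Q1: the non-containment statement fails, for every `s`

For all `s ≥ 1`, `r ≥ s`, `δ ≥ 0` and `g > (2 δ + 2 s - 1)(δ + s)` with `2 r + δ ≤ g - 1`, every curve of
genus `g` with a `g^r_{2r + δ}` has a `g^s_{δ + 2s}`; for `2 ≤ s ≤ 1 + (r - 1) / 2` the degree
`e = δ + 2 s` is below the threshold of Q1.
-/

namespace Pool.Agent.Results.MP_eed2ef_ag.SmallCliffordSeries

open Pool.Agent.H607R3.BN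

/-- `M^r_{g,d}` is a Brill-Noether locus in the sense of the problem -/
def IsBNLocus (g r d : ℤ) : Prop := 1 ≤ r ∧ rho g r d < 0 ∧ (locus g r d).Nonempty

theorem result :
    -- the containments
    (∀ g r s δ : ℤ, 1 ≤ s → s ≤ r → 0 ≤ δ → 2 * r + δ ≤ g - 1 →
      (2 * δ + 2 * s - 1) * (δ + s) < g →
      locus g r (2 * r + δ) ⊆ locus g s (δ + 2 * s)) ∧
    -- they are containments of Brill-Noether loci below the threshold
    (∀ g r s δ : ℤ, 2 ≤ s → s + 1 ≤ r → s ≤ 1 + (r - 1) / 2 → 0 ≤ δ → 2 * r + δ ≤ g - 1 →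
      (2 * δ + 2 * s - 1) * (δ + s) < g →
      IsBNLocus g r (2 * r + δ) ∧ IsBNLocus g s (δ + 2 * s) ∧ δ + 2 * s ≤ g - 1 ∧
      δ + 2 * s < (2 * r + δ) - 2 * r + 2 + s + (r - 1) / 2) ∧
    -- for every fixed `s` the non-containment statement fails
    (∀ s : ℤ, 2 ≤ s → ¬ ∃ g₀ : ℤ, ∀ g r d e : ℤ, g₀ ≤ g → d ≤ g - 1 → e ≤ g - 1 → s + 1 ≤ r →
      IsBNLocus g r d → IsBNLocus g s e → e < d - 2 * r + 2 + s + (r - 1) / 2 →
      ¬ locus g r d ⊆ locus g s e) ∧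
    -- the negation of Q1
    ¬ ∃ g₀ : ℤ, ∀ g r s d e : ℤ, g₀ ≤ g → d ≤ g - 1 → e ≤ g - 1 → 3 ≤ s + 1 → s + 1 ≤ r →
      IsBNLocus g r d → IsBNLocus g s e → e < d - 2 * r + 2 + s + (r - 1) / 2 →
      ¬ locus g r d ⊆ locus g s e := by
  have key : ∀ g r s δ : ℤ, 2 ≤ s → s + 1 ≤ r → s ≤ 1 + (r - 1) / 2 → 0 ≤ δ →
      2 * r + δ ≤ g - 1 → (2 * δ + 2 * s - 1) * (δ + s) < g →
      IsBNLocus g r (2 * r + δ) ∧ IsBNLocus g s (δ + 2 * s) ∧ δ + 2 * s ≤ g - 1 ∧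
      δ + 2 * s < (2 * r + δ) - 2 * r + 2 + s + (r - 1) / 2 := by
    intro g r s δ hs hr hsr hδ hd hg
    refine ⟨⟨by omega, rho_large g r s δ hs (by omega) hδ hd hg,
      locus_nonempty g r _ (by omega) (by omega) (by omega)⟩,
      ⟨by omega, rho_small g s δ hs hδ hg,
        locus_nonempty g s _ (by omega) (by omega) (by omega)⟩, by omega, by omega⟩
  have hfail : ∀ s : ℤ, 2 ≤ s → ¬ ∃ g₀ : ℤ, ∀ g r d e : ℤ, g₀ ≤ g → d ≤ g - 1 → e ≤ g - 1 →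
      s + 1 ≤ r → IsBNLocus g r d → IsBNLocus g s e → e < d - 2 * r + 2 + s + (r - 1) / 2 →
      ¬ locus g r d ⊆ locus g s e := by
    rintro s hs ⟨g₀, h⟩
    obtain ⟨g, h1, h2, h3⟩ : ∃ g : ℤ, g₀ ≤ g ∧ 4 * s ≤ g - 1 ∧
        (2 * 0 + 2 * s - 1) * (0 + s) < g := by
      refine ⟨max g₀ (max (4 * s + 1) ((2 * 0 + 2 * s - 1) * (0 + s) + 1)), by omega, ?_, ?_⟩
      · have := le_max_right g₀ (max (4 * s + 1) ((2 * 0 + 2 * s - 1) * (0 + s) + 1))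
        have := le_max_left (4 * s + 1) ((2 * 0 + 2 * s - 1) * (0 + s) + 1)
        omega
      · have := le_max_right g₀ (max (4 * s + 1) ((2 * 0 + 2 * s - 1) * (0 + s) + 1))
        have := le_max_right (4 * s + 1) ((2 * 0 + 2 * s - 1) * (0 + s) + 1)
        linarith
    obtain ⟨h4, h5, h6, h7⟩ := key g (2 * s) s 0 hs (by omega) (by omega) le_rfl (by omega) h3
    exact h g (2 * s) _ _ h1 (by omega) h6 (by omega) h4 h5 h7
      (locus_subset g (2 * s) s 0 (by omega) (by omega) le_rfl (by omega) h3)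
  refine ⟨locus_subset, key, hfail, ?_⟩
  rintro ⟨g₀, h⟩
  exact hfail 2 le_rfl ⟨g₀, fun g r d e h1 h2 h3 h4 => h g r 2 d e h1 h2 h3 (by norm_num) h4⟩

end Pool.Agent.Results.MP_eed2ef_ag.SmallCliffordSeries
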